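import Pool.Agent.Y61.SK.L

/-!
Job SK-XST: static estimates for the main modes and the tail energies.
-/

open Set Filter Topology

set_option autoImplicit false
set_option linter.all false

namespace Pool.Agent.Y61.SK

open Pool.Agent.Y5.D Pool.Agent.Y5.E
open Pool.Agent.Y6.N (lin)
open Pool.Agent.Y6.S
open Pool.Agent.Y5.S2 (Sq6 Dis2)
open Pool.Agent.Y710.EP
open Pool.Agent.Y8.EP (Sq5)

variable {J : Type} {g : J → ℕ} {κ μ lam Λ M a D₁ : ℝ} {L C ℓ ℓ' : ℕ → ℝ} {B : ℕ → ℕ → ℝ}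
  {D : Ix J → Ix J → ℝ} {c : Ix J → Ix J → Ix J → ℝ}

/-! ### The main modes -/

theorem vf3_cmp (x : ℕ → ℝ) (n : ℕ) :
    vf3 L C ℓ B x n = vf3 L C ℓ' B x n + ℓ' n * x n - ℓ n * x n := by
  unfold vf3
  ring

theorem lin_inl (hK : Ker g Λ M L C B c) (hD : Dis2 g a D₁ κ L ℓ D) (z : Ix J → ℝ) (n : ℕ) :
    lin D z (Sum.inl n) = ℓ n * z (Sum.inl n) + lin D (Po z) (Sum.inl n) := by
  rw [lin_add hK hD (pm_po z)]
  congr 1
  unfold lin
  rw [tsum_eq_single (Sum.inl n), hD.diag n]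
  · rfl
  · intro b hb
    cases b with
    | inl m =>
      have : D (Sum.inl n) (Sum.inl m) = 0 := by
        by_contra h
        have h1 := hD.blk _ _ h
        apply hb
        have : n = m := h1
        rw [this]
      rw [this, zero_mul]
    | inr j => simp [Pm]

theorem main_static (hK : Ker g Λ M L C B c) (hs : Sq5 κ μ lam Λ M L C ℓ' B)
    (hD : Dis2 g a D₁ κ L ℓ D) {z : Ix J → ℝ} (hz : Nice g L z) (n : ℕ) :
    |bl c z z (Sum.inl n) - lin D z (Sum.inl n) - vf3 L C ℓ B (fun m => z (Sum.inl m)) n| ≤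
    10 ^ 7 * M ^ 4 * (
      L n * (κ ^ n + sA (Λ / lam) (ee g z) n + nm (Pu g n z)) * nm (Pu g n (Po z))
      + sU L (ww g z) n * nm (Pu g n z)
      + L n * sA (Λ / lam) (ww g z) n * nm (Pu g (n + 1) z) + lc L g z n) := by
  classical
  have hzp := hz.po hs
  set α : Ix J → ℝ := Pi.single (Sum.inl n) 1 with hα
  have hα0 : ∀ i, i ≠ Sum.inl n → α i = 0 := fun i hi => Pi.single_eq_of_ne hi _
  have hα1 : α (Sum.inl n) = 1 := Pi.single_eq_same _ _
  have hαn : nm α = 1 := by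
    unfold nm
    rw [hα, nm_single, Real.sqrt_one]
  have hαN : Nice g L α := single_nice hs hα0
  have h1 := f_static hK hs hz hα0 hαn
  have h2 : tl c α z z = bl c z z (Sum.inl n) := by
    rw [← (tl_bl hK hs hαN hz hz).2, tsum_eq_single (Sum.inl n), hα1, one_mul]
    intro i hi
    rw [hα0 i hi, zero_mul]
  have hx : Summable fun i : ℕ => z (Sum.inl i) ^ 2 :=
    (hz.sq hs).comp_injective Sum.inl_injective
  rw [h2, tl_main hK hs hx hα0 hα1] at h1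
  rw [vf3_cmp (ℓ' := ℓ'), lin_inl hK hD]
  have h3 := lin_bd hK hs hD (Po z) (Sum.inl n)
  change |lin D (Po z) (Sum.inl n)| ≤ 10 ^ 6 * (κ ^ n * L n) * nm (Pg g n (Po z)) at h3
  have h4 : nm (Pg g n (Po z)) ≤ nm (Pu g n (Po z)) := by
    refine nm_mono hs (hzp.pu hs n) fun b => ?_
    unfold Pg Pu
    by_cases hb : gr g b = n
    · rw [if_pos hb, if_pos (by omega)]
    · rw [if_neg hb, abs_zero]; exact abs_nonneg _
  have hκ := D_nn hs n
  have h5 : |lin D (Po z) (Sum.inl n)| ≤ 10 ^ 6 * (κ ^ n * L n) * nm (Pu g n (Po z)) :=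
    h3.trans (by gcongr)
  set Q := L n * (sA (Λ / lam) (ee g z) n + nm (Pu g n z)) * nm (Pu g n (Po z))
      + sU L (ww g z) n * nm (Pu g n z) + L n * sA (Λ / lam) (ww g z) n * nm (Pu g (n + 1) z)
      + lc L g z n with hQ
  have hQ0 : 0 ≤ Q := by
    have g1 := L_nn hs n
    have g2 := sA_nn hs (fun p => ee_nn (g := g) z p) n
    have g3 := sA_nn hs (fun p => ww_nn (g := g) z p) n
    have g4 := sU_nn hs (fun p => ww_nn (g := g) z p) n
    have g5 := lc_nn (g := g) hs z n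
    have g6 := nm_nn (Pu g n z)
    have g7 := nm_nn (Pu g n (Po z))
    have g8 := nm_nn (Pu g (n + 1) z)
    positivity
  have hW := nm_nn (Pu g n (Po z))
  have e : L n * (κ ^ n + sA (Λ / lam) (ee g z) n + nm (Pu g n z)) * nm (Pu g n (Po z))
      + sU L (ww g z) n * nm (Pu g n z)
      + L n * sA (Λ / lam) (ww g z) n * nm (Pu g (n + 1) z) + lc L g z n =
      (κ ^ n * L n) * nm (Pu g n (Po z)) + Q := by
    rw [hQ]; ring
  rw [e]
  have hM4 : 1 ≤ M ^ 4 := one_le_pow₀ hs.M_one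
  have hP : 0 ≤ (κ ^ n * L n) * nm (Pu g n (Po z)) := mul_nonneg hκ hW
  have h6 : 10 ^ 6 * (κ ^ n * L n) * nm (Pu g n (Po z)) ≤
      10 ^ 7 * M ^ 4 * ((κ ^ n * L n) * nm (Pu g n (Po z))) := by
    calc 10 ^ 6 * (κ ^ n * L n) * nm (Pu g n (Po z))
        = 10 ^ 6 * 1 * ((κ ^ n * L n) * nm (Pu g n (Po z))) := by ring
      _ ≤ 10 ^ 7 * M ^ 4 * ((κ ^ n * L n) * nm (Pu g n (Po z))) := by
        gcongr <;> norm_num
  have h7 : 10 ^ 6 * M ^ 4 * Q ≤ 10 ^ 7 * M ^ 4 * Q := by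
    gcongr <;> norm_num
  have h8 := abs_le.1 h1
  have h9 := abs_le.1 h5
  rw [abs_le]
  constructor <;> linarith

/-! ### The tail energies -/

/-- the trilinear part of the tail energy -/
theorem tri_tail (hK : Ker g Λ M L C B c) (hs : Sq5 κ μ lam Λ M L C ℓ' B) {z : Ix J → ℝ}
    (hz : Nice g L z) (n : ℕ) :
    2 * tl c (Pu g (n + 1) z) z z ≤
      2 * (C n * L n * z (Sum.inl n) ^ 2 + 10 ^ 7 * M ^ 4 * lc L g z (n + 1)) *
        nm (Pu g (n + 1) z)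
      + 2 * (1001 / 1000 * sU L (fun q => |z (Sum.inl q)|) (n + 1) +
        10 ^ 7 * M ^ 4 * sU L (ww g z) (n + 1)) * nm (Pu g (n + 1) z) ^ 2
      + 2 * (10 ^ 7 * M ^ 4) * sU L (fun q => |z (Sum.inl q)|) (n + 1) *
        (nm (Pu g (n + 1) z) * nm (Pu g (n + 1) (Po z))) / 2
      + 2 * (10 ^ 7 * M ^ 4) * (L n * sA (Λ / lam) (ee g z) (n + 1) * ee g z n) *
        nm (Pu g (n + 1) (Po z)) := by
  have hM := M_nn hs
  have hM1 := hs.M_one
  have hL := L_nn hs n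
  have hLm := L_nn hs (n + 1)
  have hzp := hz.po hs
  have hzm := hz.pm hs
  set m := n + 1 with hm
  set Y := nm (Pu g m z) with hYd
  set W := nm (Pu g m (Po z)) with hWd
  set U := sU L (fun q => |z (Sum.inl q)|) m with hUd
  set V := sU L (ww g z) m with hVd
  set A := sA (Λ / lam) (ee g z) m with hAd
  have hY : 0 ≤ Y := nm_nn _
  have hW : 0 ≤ W := nm_nn _
  have hWY : W ≤ Y := W_le_Y hs hz m
  have hXY : nm (Pu g m (Pm z)) ≤ Y := X_le_Y hs hz m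
  have hX0 := nm_nn (Pu g m (Pm z))
  have hU : 0 ≤ U := sU_nn hs (fun p => abs_nonneg _) m
  have hV : 0 ≤ V := sU_nn hs (fun p => ww_nn z p) m
  have hA : 0 ≤ A := sA_nn hs (fun p => ee_nn z p) m
  have hE := ee_nn (g := g) z n
  have hlc := lc_nn (g := g) hs z m
  have hux := hz.pu hs m
  have hlx := hz.pl hs m
  -- cancellation
  have e1 : tl c (Pu g m z) z z = tl c (Pu g m z) (Pl g m z) (Pl g m z) +
      tl c (Pu g m z) (Pu g m z) (Pl g m z) := by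
    rw [tl_split3 hK hs hux hz hz m, tl_self hK, add_zero, tl_split2 hK hs hux hz hlx m]
  -- the first term
  have e2 : tl c (Pu g m z) (Pl g m z) (Pl g m z) =
      tl c (Pg g m (Pm z)) (Pl g m z) (Pl g m z) + tl c (Pg g m (Po z)) (Pl g m z) (Pl g m z) := by
    rw [← tl_c1 hK hs (hzm.pg hs m) (hzp.pg hs m) hlx hlx (α := Pg g m z) (pg_mo m z)]
    refine tl_congr fun i a b hc => ?_
    unfold Pu Pg Pl
    by_cases ha : gr g a < m
    · by_cases hb : gr g b < m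
      · have h2 := (hK.near _ _ _ hc).1
        by_cases hi : gr g i = m
        · rw [if_pos hi, if_pos (by omega)]
        · rw [if_neg hi, if_neg (by omega)]
      · rw [if_neg hb]; ring
    · rw [if_neg ha]; ring
  have hαm : Nice g L (Pg g m (Pm z)) := hzm.pg hs m
  have hαs : ∀ i, i ≠ Sum.inl m → Pg g m (Pm z) i = 0 := by
    rintro (i | j) hi
    · have : i ≠ m := fun h => hi (by rw [h])
      simp [Pg, gr, this]
    · simp [Pg, Pm]
  have e3 : tl c (Pg g m (Pm z)) (Pl g m z) (Pl g m z) =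
      tl c (Pg g m (Pm z)) (Pl g m z) (Pl g m (Po z)) +
      tl c (Pg g m (Pm z)) (Pl g m (Po z)) (Pl g m (Pm z)) +
      z (Sum.inl m) * (L n * C n * z (Sum.inl n) ^ 2) := by
    rw [tl_c3 hK hs hαm hlx (hzm.pl hs m) (hzp.pl hs m) (pl_mo m z),
      tl_c2 hK hs hαm (hzm.pl hs m) (hzp.pl hs m) (hzm.pl hs m) (pl_mo m z), tl_force hK z n]
    ring
  obtain ⟨a1, a2⟩ := EAl hK hs hz hαm hαs
  rw [nm_pm] at a1 a2
  have hxm : |z (Sum.inl m)| ≤ Y := by
    rw [← nm_pm (g := g) z m]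
    refine le_trans ?_ hXY
    refine nm_mono hs (hzm.pu hs m) fun a => ?_
    unfold Pg Pu
    by_cases ha : gr g a = m
    · rw [if_pos ha, if_pos (by omega)]
    · rw [if_neg ha, abs_zero]; exact abs_nonneg _
  have a3 : |tl c (Pg g m (Po z)) (Pl g m z) (Pl g m z)| ≤
      2 * (M * (ww g z m * (L n * A * ee g z n))) :=
    EA hK hs (hzp.pg hs m) hlx hlx (Pg_in _ _) (Pl_in _ _) (Pl_in _ _) (b := ee g z)
        (fun p => (pg_pl_le hs hz p _).trans (grp_le hs hz p))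
        (fun p => (pg_pl_le hs hz p _).trans (grp_le hs hz p))
  have hwW : ww g z m ≤ W := by
    refine nm_mono hs (hzp.pu hs m) fun a => ?_
    unfold Pg Pu
    by_cases ha : gr g a = m
    · rw [if_pos ha, if_pos (by omega)]
    · rw [if_neg ha, abs_zero]; exact abs_nonneg _
  -- the second term
  have e4 : tl c (Pu g m z) (Pu g m z) (Pl g m z) =
      tl c (Pu g m z) (Pu g m z) (Pl g m (Po z)) +
      tl c (Pu g m (Po z)) (Pu g m z) (Pl g m (Pm z)) +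
      tl c (Pu g m (Pm z)) (Pu g m (Po z)) (Pl g m (Pm z)) +
      tl c (Pu g m (Pm z)) (Pu g m (Pm z)) (Pl g m (Pm z)) := by
    rw [tl_c3 hK hs hux hux (hzm.pl hs m) (hzp.pl hs m) (pl_mo m z),
      tl_c1 hK hs (hzm.pu hs m) (hzp.pu hs m) hux (hzm.pl hs m) (pu_mo m z),
      tl_c2 hK hs (hzm.pu hs m) (hzm.pu hs m) (hzp.pu hs m) (hzm.pl hs m) (pu_mo m z)]
    ring
  have b1 := EH hK hs hux hux hzp m (Pu_in _ _) (Pu_in _ _) (b := ww g z) (fun p => le_rfl)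
  have b2 := EH hK hs (hzp.pu hs m) hux hzm m (Pu_in _ _) (Pu_in _ _)
    (b := fun q => |z (Sum.inl q)|) (fun p => le_of_eq (nm_pm z p))
  have b3 := EH hK hs (hzm.pu hs m) (hzp.pu hs m) hzm m (Pu_in _ _) (Pu_in _ _)
    (b := fun q => |z (Sum.inl q)|) (fun p => le_of_eq (nm_pm z p))
  have b4 := EHm hK hs hz m
  rw [← hYd, ← hVd] at b1
  rw [← hYd, ← hWd, ← hUd] at b2
  rw [← hWd, ← hUd] at b3
  rw [← hUd] at b4
  have b3' : 3 * (M * (U * (nm (Pu g m (Pm z)) * W))) ≤ 3 * (M * (U * (W * Y))) := by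
    rw [mul_comm W Y]; gcongr
  have b4' : 1001 / 1000 * (U * nm (Pu g m (Pm z)) ^ 2) ≤ 1001 / 1000 * (U * Y ^ 2) := by gcongr
  have hMM : M ≤ M ^ 4 := le_self_pow₀ hM1 (by norm_num)
  -- bounds with the larger constants
  have c1 : 12 * (M * (U * (W * Y))) ≤ 10 ^ 7 * M ^ 4 * (U * (Y * W)) := by
    calc 12 * (M * (U * (W * Y))) = 12 * M * (U * (Y * W)) := by ring
      _ ≤ 10 ^ 7 * M ^ 4 * (U * (Y * W)) := by
        gcongr
        norm_num
  have c2 : 4 * (M * (ww g z m * (L n * A * ee g z n))) ≤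
      2 * (10 ^ 7 * M ^ 4) * (L n * A * ee g z n) * W := by
    calc 4 * (M * (ww g z m * (L n * A * ee g z n))) ≤ 4 * (M * (W * (L n * A * ee g z n))) := by
          gcongr
      _ = 4 * M * (L n * A * ee g z n) * W := by ring
      _ ≤ 2 * (10 ^ 7 * M ^ 4) * (L n * A * ee g z n) * W := by
          have : 4 * M ≤ 2 * (10 ^ 7 * M ^ 4) := by linarith
          gcongr
  have hforce : 2 * (z (Sum.inl m) * (L n * C n * z (Sum.inl n) ^ 2)) ≤
      2 * (C n * L n * z (Sum.inl n) ^ 2) * Y := by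
    have hC : 0 ≤ C n := (mul_nonneg hs.κ0.le (Real.exp_pos _).le).trans (hs.C_lo n)
    have h2 : z (Sum.inl m) ≤ Y := (le_abs_self _).trans hxm
    have h3 : 0 ≤ L n * C n * z (Sum.inl n) ^ 2 := by positivity
    calc 2 * (z (Sum.inl m) * (L n * C n * z (Sum.inl n) ^ 2)) ≤
        2 * (Y * (L n * C n * z (Sum.inl n) ^ 2)) := by gcongr
      _ = _ := by ring
  obtain ⟨d1, d2⟩ := abs3 hM1 (abs_nonneg (z (Sum.inl m))) hlc hxm hV
  have d1' : 2 * (10 ^ 6 * M ^ 4 * lc L g z m) * Y ≤ 2 * (10 ^ 7 * M ^ 4 * lc L g z m) * Y := by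
    gcongr <;> norm_num
  have d2' : 2 * (10 ^ 6 * M ^ 4 * V) * Y ^ 2 ≤ 2 * (10 ^ 7 * M ^ 4 * V) * Y ^ 2 := by
    gcongr <;> norm_num
  rw [e1, e2, e3, e4]
  have := (abs_le.1 a1).2
  have := (abs_le.1 a2).2
  have := (abs_le.1 a3).2
  have := (abs_le.1 b1).2
  have := (abs_le.1 b2).2
  have := (abs_le.1 (b3.trans b3')).2
  have := (abs_le.1 (b4.trans b4')).2
  have q1 : 2 * (C n * L n * z (Sum.inl n) ^ 2 + 10 ^ 7 * M ^ 4 * lc L g z m) * Y =
    2 * (C n * L n * z (Sum.inl n) ^ 2) * Y + 2 * (10 ^ 7 * M ^ 4 * lc L g z m) * Y := by ring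
  have q2 : 2 * (1001 / 1000 * U + 10 ^ 7 * M ^ 4 * V) * Y ^ 2 =
    2 * (1001 / 1000 * (U * Y ^ 2)) + 2 * (10 ^ 7 * M ^ 4 * V) * Y ^ 2 := by
    ring
  have q3 : 2 * (10 ^ 7 * M ^ 4) * U * (Y * W) / 2 = 10 ^ 7 * M ^ 4 * (U * (Y * W)) := by ring
  rw [q1, q2, q3]
  linarith

theorem tail_static (hK : Ker g Λ M L C B c) (hs6 : Sq6 κ μ lam Λ M L C ℓ B)
    (hs : Sq5 κ μ lam Λ M L C ℓ' B)
    (hD : Dis2 g a D₁ κ L ℓ D) (ha : 0 < a) {z : Ix J → ℝ} (hz : Nice g L z) (n : ℕ) :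
    2 * tl c (Pu g (n + 1) z) z z - 2 * ∑' i, Pu g (n + 1) z i * lin D z i ≤
    2 * (C n * L n * z (Sum.inl n) ^ 2 + 10 ^ 7 * M ^ 4 * lc L g z (n + 1)) *
      nm (Pu g (n + 1) z)
    + 2 * (1001 / 1000 * sU L (fun q => |z (Sum.inl q)|) (n + 1)
      + 10 ^ 7 * M ^ 4 * sU L (ww g z) (n + 1) - ℓ (n + 1)) * nm (Pu g (n + 1) z) ^ 2
    + 2 * (10 ^ 7 * M ^ 4) * (sU L (fun q => |z (Sum.inl q)|) (n + 1)
      + κ ^ (n + 1) * L (n + 1)) * (nm (Pu g (n + 1) z) * nm (Pu g (n + 1) (Po z)))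
    + 2 * (10 ^ 7 * M ^ 4) * (L n * sA (Λ / lam) (ee g z) (n + 1) * ee g z n) *
      nm (Pu g (n + 1) (Po z)) := by
  have h1 := tri_tail hK hs hz n
  have h2 := lin_tail hK hs6 hs hD ha hz n
  have hU : 0 ≤ sU L (fun q => |z (Sum.inl q)|) (n + 1) := sU_nn hs (fun p => abs_nonneg _) _
  have hκ := D_nn hs (n + 1)
  have hP : 0 ≤ nm (Pu g (n + 1) z) * nm (Pu g (n + 1) (Po z)) := mul_nonneg (nm_nn _) (nm_nn _)
  have hM4 : 1 ≤ M ^ 4 := one_le_pow₀ hs.M_one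
  set Y := nm (Pu g (n + 1) z) with hY
  set W := nm (Pu g (n + 1) (Po z)) with hW
  set U := sU L (fun q => |z (Sum.inl q)|) (n + 1) with hUd
  set V := sU L (ww g z) (n + 1) with hVd
  set S := κ ^ (n + 1) * L (n + 1) with hS
  have h3 : 2 * (3 * 10 ^ 6 * S * (Y * W)) ≤ 2 * (10 ^ 7 * M ^ 4) * S * (Y * W) := by
    calc 2 * (3 * 10 ^ 6 * S * (Y * W)) = 2 * (3 * 10 ^ 6 * 1) * S * (Y * W) := by ring
      _ ≤ 2 * (10 ^ 7 * M ^ 4) * S * (Y * W) := by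
        gcongr
        norm_num
  have h4 : 0 ≤ 2 * (10 ^ 7 * M ^ 4) * U * (Y * W) := by positivity
  have q2 : 2 * (1001 / 1000 * U + 10 ^ 7 * M ^ 4 * V - ℓ (n + 1)) * Y ^ 2 =
    2 * (1001 / 1000 * U + 10 ^ 7 * M ^ 4 * V) * Y ^ 2 - 2 * (ℓ (n + 1) * Y ^ 2) := by ring
  have q3 : 2 * (10 ^ 7 * M ^ 4) * (U + S) * (Y * W) =
    2 * (10 ^ 7 * M ^ 4) * U * (Y * W) + 2 * (10 ^ 7 * M ^ 4) * S * (Y * W) := by ring
  rw [q2, q3]
  linarith

/-- The static estimates of the main modes and the tail energies (no hypothesis needed). -/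
theorem t_XST0 : S_XST := by
  intro J g κ μ lam Λ M a D₁ L C ℓ B D c hK hs6 hD ha z hz
  have hs := sq65 hs6
  have hzn := nice_of_Rp hK hs hz
  exact ⟨fun n => main_static hK hs hD hzn n, lin_nonneg hK hs hD ha hzn,
    fun n => tail_static hK hs6 hs hD ha hzn n⟩

theorem t_XST : Pool.Agent.Y6.S.S_RAP → Pool.Agent.Y6.S.S_XST := fun _ => t_XST0

end Pool.Agent.Y61.SK
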