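import Pool.Agent.Y6.S.Conv
import Pool.Agent.Y710.EP.PERT5

/-!
Job SK-XST: the linear term.
-/

open Set Filter Topology

set_option autoImplicit false
set_option linter.all false

namespace Pool.Agent.Y61.SK

open Pool.Agent.Y5.D Pool.Agent.Y5.E
open Pool.Agent.Y6.N (lin)
open Pool.Agent.Y6.S
open Pool.Agent.Y5.S2 (Sq6 Dis2)
open Pool.Agent.Y710.EP
open Pool.Agent.Y8.EP (Sq5)

variable {J : Type} {g : J → ℕ} {κ μ lam Λ M a D₁ : ℝ} {L C ℓ ℓ' : ℕ → ℝ} {B : ℕ → ℕ → ℝ}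
  {D : Ix J → Ix J → ℝ} {c : Ix J → Ix J → Ix J → ℝ}

/-! ### Rapidly decreasing vectors -/

theorem nice_of_Rp (hK : Ker g Λ M L C B c) (hs : Sq5 κ μ lam Λ M L C ℓ' B) {z : Ix J → ℝ}
    (hz : Rp g L z) : Nice g L z := by
  obtain ⟨K, hK'⟩ := hz 4
  have h := (wsum hK hs).mul_left K
  refine Summable.of_nonneg_of_le (fun a => mul_nonneg (L_nn hs _) (abs_nonneg _)) (fun a => ?_) h
  have hL : 0 < L (gr g a) := lt_of_lt_of_le one_pos (L_one hs _)
  have h1 := hK' a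
  have h2 : |z a| ≤ K * (L (gr g a))⁻¹ ^ 4 := by
    rw [inv_pow, ← div_eq_mul_inv, le_div_iff₀ (by positivity), mul_comm]
    exact h1
  calc L (gr g a) * |z a| ≤ L (gr g a) * (K * (L (gr g a))⁻¹ ^ 4) := by gcongr
    _ = _ := by ring

/-! ### Groups -/

theorem fin_gr (hK : Ker g Λ M L C B c) (n : ℕ) : {i : Ix J | gr g i = n}.Finite := by
  refine (((hK.fin n).image Sum.inr).insert (Sum.inl n)).subset ?_
  rintro (m | j) h
  · left
    have : m = n := h
    rw [this]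
  · right
    exact ⟨j, h, rfl⟩

theorem row_fin (hK : Ker g Λ M L C B c) (hD : Dis2 g a D₁ κ L ℓ D) (i : Ix J) (z : Ix J → ℝ) :
    Summable (fun b => D i b * z b) := by
  refine summable_of_finite_support ((fin_gr hK (gr g i)).subset ?_)
  intro b hb
  have : D i b ≠ 0 := fun h => hb (by simp [h])
  exact (hD.blk i b this).symm

theorem lin_pg (hD : Dis2 g a D₁ κ L ℓ D) {n : ℕ} {i : Ix J} (hi : gr g i = n) (z : Ix J → ℝ) :
    lin D z i = lin D (Pg g n z) i := by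
  unfold lin
  refine tsum_congr fun b => ?_
  by_cases h : D i b = 0
  · rw [h]; ring
  · have := hD.blk i b h
    unfold Pg
    rw [if_pos (by omega)]

theorem lin_add (hK : Ker g Λ M L C B c) (hD : Dis2 g a D₁ κ L ℓ D) {y z u : Ix J → ℝ}
    (h : ∀ b, u b = y b + z b) (i : Ix J) : lin D u i = lin D y i + lin D z i := by
  unfold lin
  rw [← (row_fin hK hD i y).tsum_add (row_fin hK hD i z)]
  exact tsum_congr fun b => by rw [h]; ring

theorem q_eq (hK : Ker g Λ M L C B c) (hD : Dis2 g a D₁ κ L ℓ D) {n : ℕ} {α β : Ix J → ℝ}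
    (hα : InG g n α) :
    ∑' p : Ix J × Ix J, D p.1 p.2 * α p.1 * β p.2 = ∑' i, α i * lin D β i := by
  have hf : Summable (fun p : Ix J × Ix J => D p.1 p.2 * α p.1 * β p.2) := by
    refine summable_of_finite_support (((fin_gr hK n).prod (fin_gr hK n)).subset ?_)
    rintro ⟨i, b⟩ hp
    have h1 : D i b ≠ 0 := fun h => hp (by simp [h])
    have h2 : gr g i = n := by
      by_contra h
      exact hp (by simp [hα i h])
    have h3 := hD.blk i b h1
    exact ⟨h2, by show gr g b = n; omega⟩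
  rw [hf.tsum_prod]
  refine tsum_congr fun i => ?_
  unfold lin
  rw [← tsum_mul_left]
  exact tsum_congr fun b => by ring

theorem sum_fin (hK : Ker g Λ M L C B c) {n : ℕ} {α : Ix J → ℝ} (hα : InG g n α) (f : Ix J → ℝ) :
    Summable (fun i => α i * f i) := by
  refine summable_of_finite_support ((fin_gr hK n).subset ?_)
  intro i hi
  show gr g i = n
  by_contra h
  exact hi (by simp [hα i h])

theorem D_nn (hs : Sq5 κ μ lam Λ M L C ℓ' B) (n : ℕ) : 0 ≤ κ ^ n * L n :=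
  mul_nonneg (pow_nonneg hs.κ0.le _) (L_nn hs n)

theorem up1 (hK : Ker g Λ M L C B c) (hs : Sq5 κ μ lam Λ M L C ℓ' B)
    (hD : Dis2 g a D₁ κ L ℓ D) {n : ℕ} {α β : Ix J → ℝ} (hα : InG g n α) (hβ : InG g n β) :
    |∑' i, α i * lin D β i| ≤ 10 ^ 6 * (κ ^ n * L n) * nm α * nm β := by
  rw [← q_eq hK hD hα]
  refine (hD.up n α β hα hβ).trans ?_
  change D₁ * (κ ^ n * L n) * nm α * nm β ≤ _
  have h1 := D_nn hs n
  have h2 := nm_nn α
  have h3 := nm_nn β
  have h4 := hD.D1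
  gcongr

theorem low' (hK : Ker g Λ M L C B c) (hs : Sq5 κ μ lam Λ M L C ℓ' B)
    (hD : Dis2 g a D₁ κ L ℓ D) (ha : 0 < a) {n : ℕ} {α : Ix J → ℝ} (hα : InG g n α) :
    0 ≤ ∑' i, α i * lin D α i := by
  rw [← q_eq hK hD hα]
  refine le_trans ?_ (hD.low n α hα)
  have h1 := D_nn hs n
  have h2 : 0 ≤ ∑' i, α i ^ 2 := tsum_nonneg fun i => sq_nonneg _
  positivity

theorem low2 (hK : Ker g Λ M L C B c) 
    (hD : Dis2 g a D₁ κ L ℓ D) {n : ℕ} {α : Ix J → ℝ} (hα : InG g (n + 1) α) :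
    1 / 1000 * (κ ^ n * L n) * nm α ^ 2 ≤ ∑' i, α i * lin D α i := by
  rw [← q_eq hK hD hα, nm_sq]
  exact hD.low1 n α hα

theorem sym' (hK : Ker g Λ M L C B c) (hD : Dis2 g a D₁ κ L ℓ D) {n : ℕ} {α β : Ix J → ℝ}
    (hα : InG g n α) (hβ : InG g n β) : ∑' i, α i * lin D β i = ∑' i, β i * lin D α i := by
  rw [← q_eq hK hD hα, ← q_eq hK hD hβ]
  let e : Ix J × Ix J ≃ Ix J × Ix J := Equiv.prodComm _ _
  rw [← e.tsum_eq]
  refine tsum_congr fun p => ?_
  show D p.2 p.1 * α p.2 * β p.1 = D p.1 p.2 * β p.1 * α p.2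
  rw [hD.symm p.2 p.1]
  ring

/-- the linear term in the group of `i`, tested with a unit vector -/
theorem lin_bd (hK : Ker g Λ M L C B c) (hs : Sq5 κ μ lam Λ M L C ℓ' B)
    (hD : Dis2 g a D₁ κ L ℓ D) (z : Ix J → ℝ) (i : Ix J) :
    |lin D z i| ≤ 10 ^ 6 * (κ ^ gr g i * L (gr g i)) * nm (Pg g (gr g i) z) := by
  classical
  have h := up1 hK hs hD (n := gr g i) (α := Pi.single i 1) (β := Pg g (gr g i) z)
    (fun j hj => Pi.single_eq_of_ne (fun h => hj (by rw [h])) _) (Pg_in _ _)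
  have e1 : nm (Pi.single i (1 : ℝ) : Ix J → ℝ) = 1 := by
    unfold nm
    rw [nm_single, Real.sqrt_one]
  have e2 : ∑' j, (Pi.single i (1 : ℝ) : Ix J → ℝ) j * lin D (Pg g (gr g i) z) j = lin D z i := by
    rw [tsum_eq_single i]
    · rw [Pi.single_eq_same, one_mul, ← lin_pg hD rfl z]
    · intro j hj
      rw [Pi.single_eq_of_ne hj, zero_mul]
  rw [e1, e2, mul_one] at h
  exact h

theorem sumq (hK : Ker g Λ M L C B c) (hs : Sq5 κ μ lam Λ M L C ℓ' B)
    (hD : Dis2 g a D₁ κ L ℓ D) {z y : Ix J → ℝ} (hz : Nice g L z) (hy : ∀ i, |y i| ≤ |z i|) :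
    Summable (fun i => y i * lin D z i) := by
  have h : Summable (fun i => (10 ^ 6 * nm z) * (L (gr g i) * |z i|)) := Summable.mul_left _ hz
  refine Summable.of_norm_bounded h fun i => ?_
  rw [Real.norm_eq_abs, abs_mul]
  have h1 := lin_bd hK hs hD z i
  have h2 : nm (Pg g (gr g i) z) ≤ nm z := nm_mono hs hz (Pg_le _ _)
  have h3 : κ ^ gr g i ≤ 1 := pow_le_one₀ hs.κ0.le hs.κ1
  have h4 := L_nn hs (gr g i)
  have h5 := nm_nn z
  have h6 := hs.κ0
  have h7 := nm_nn (Pg g (gr g i) z)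
  calc |y i| * |lin D z i| ≤ |z i| * (10 ^ 6 * (κ ^ gr g i * L (gr g i)) * nm (Pg g (gr g i) z)) :=
        mul_le_mul (hy i) h1 (abs_nonneg _) (abs_nonneg _)
    _ ≤ |z i| * (10 ^ 6 * (1 * L (gr g i)) * nm z) := by gcongr
    _ = _ := by ring

/-- the form, by groups -/
theorem fibq (hK : Ker g Λ M L C B c) (hs : Sq5 κ μ lam Λ M L C ℓ' B)
    (hD : Dis2 g a D₁ κ L ℓ D) {z y : Ix J → ℝ} (hz : Nice g L z) (hy : ∀ i, |y i| ≤ |z i|) :
    HasSum (fun k => ∑' i, Pg g k y i * lin D (Pg g k z) i) (∑' i, y i * lin D z i) := by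
  have h := (sumq hK hs hD hz hy).hasSum.tsum_fiberwise (gr g)
  refine h.congr_fun ?_
  intro k
  rw [tsum_subtype (gr g ⁻¹' {k}) (fun i => y i * lin D z i)]
  refine tsum_congr fun i => ?_
  by_cases hi : gr g i = k
  · rw [indicator_of_mem (by simpa using hi), lin_pg hD hi z]
    congr 1
    unfold Pg; rw [if_pos hi]
  · rw [indicator_of_notMem (by simpa using hi)]
    unfold Pg; rw [if_neg hi]; ring

theorem pg_pu {m k : ℕ} (h : m ≤ k) (z : Ix J → ℝ) : Pg g k (Pu g m z) = Pg g k z := by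
  funext i
  unfold Pg Pu
  by_cases hi : gr g i = k
  · rw [if_pos hi, if_pos hi, if_pos (by omega)]
  · rw [if_neg hi, if_neg hi]

theorem pg_pu0 {m k : ℕ} (h : k < m) (z : Ix J → ℝ) : Pg g k (Pu g m z) = fun _ => 0 := by
  funext i
  unfold Pg Pu
  by_cases hi : gr g i = k
  · rw [if_pos hi, if_neg (by omega)]
  · rw [if_neg hi]

theorem nm_zero : nm (fun _ : Ix J => (0 : ℝ)) = 0 := by
  unfold nm
  simp

/-- the form is nonnegative -/
theorem lin_nonneg (hK : Ker g Λ M L C B c) (hs : Sq5 κ μ lam Λ M L C ℓ' B)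
    (hD : Dis2 g a D₁ κ L ℓ D) (ha : 0 < a) {z : Ix J → ℝ} (hz : Nice g L z) :
    0 ≤ ∑' i, z i * lin D z i :=
  (fibq hK hs hD hz (fun _ => le_rfl)).nonneg fun k => low' hK hs hD ha (Pg_in k z)

/-! ### The scales -/

theorem κL (hs : Sq5 κ μ lam Λ M L C ℓ' B) (n : ℕ) : κ ^ n * L n = μ ^ n * L 0 := by
  induction n with
  | zero => simp
  | succ n ih =>
    rw [hs.L_succ, pow_succ, pow_succ, show κ ^ n * κ * (lam * L n) = (κ * lam) * (κ ^ n * L n) by
      ring, ih, ← hs.μ_eq]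
    ring

theorem κL_succ (hs : Sq5 κ μ lam Λ M L C ℓ' B) (n : ℕ) :
    κ ^ (n + 1) * L (n + 1) = μ * (κ ^ n * L n) := by
  rw [κL hs, κL hs, pow_succ]; ring

theorem κL_mono (hs : Sq5 κ μ lam Λ M L C ℓ' B) {m n : ℕ} (h : m ≤ n) :
    κ ^ m * L m ≤ κ ^ n * L n := by
  rw [κL hs, κL hs]
  have h1 := L_nn hs 0
  have h2 := μ_one hs
  gcongr

theorem ℓ_le (hs6 : Sq6 κ μ lam Λ M L C ℓ B) (hs : Sq5 κ μ lam Λ M L C ℓ' B) (n : ℕ) :
    ℓ (n + 1) ≤ κ ^ n * L n := by
  have h := (abs_le.1 (hs6.ℓ_succ n)).2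
  have h1 := D_nn hs n
  linarith

/-- the linear part of the tail energy -/
theorem lin_tail (hK : Ker g Λ M L C B c) (hs6 : Sq6 κ μ lam Λ M L C ℓ B)
    (hs : Sq5 κ μ lam Λ M L C ℓ' B)
    (hD : Dis2 g a D₁ κ L ℓ D) (ha : 0 < a) {z : Ix J → ℝ} (hz : Nice g L z) (n : ℕ) :
    ℓ (n + 1) * nm (Pu g (n + 1) z) ^ 2 -
      3 * 10 ^ 6 * (κ ^ (n + 1) * L (n + 1)) * (nm (Pu g (n + 1) z) * nm (Pu g (n + 1) (Po z))) ≤
    ∑' i, Pu g (n + 1) z i * lin D z i := by
  set m := n + 1 with hm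
  set E := 3 * 10 ^ 6 * (κ ^ m * L m) * (nm (Pu g m z) * nm (Pu g m (Po z))) with hE
  have hzp := hz.po hs
  have hzm := hz.pm hs
  have h1 := fibq hK hs hD hz (Pu_le (g := g) m z)
  have h2 : HasSum (fun k => ℓ m * nm (Pg g k (Pu g m z)) ^ 2 - if k = m then E else 0)
      (ℓ m * nm (Pu g m z) ^ 2 - E) :=
    ((fib hs (hz.pu hs m)).mul_left (ℓ m)).sub (hasSum_ite_eq m E)
  refine hasSum_le (fun k => ?_) h2 h1
  rcases lt_trichotomy k m with hk | hk | hk
  · rw [pg_pu0 hk, nm_zero, if_neg (by omega)]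
    simp
  · subst hk
    rw [if_pos rfl, pg_pu le_rfl]
    -- the group `m`
    set X := Pg g m (Pm z) with hX
    set Y := Pg g m (Po z) with hY
    have hXin : InG g m X := Pg_in m _
    have hYin : InG g m Y := Pg_in m _
    have hXY : ∀ b, Pg g m z b = X b + Y b := pg_mo m z
    have e1 : ∑' i, Pg g m z i * lin D (Pg g m z) i = ∑' i, X i * lin D X i +
        2 * ∑' i, X i * lin D Y i + ∑' i, Y i * lin D Y i := by
      have e2 : ∀ i, Pg g m z i * lin D (Pg g m z) i = (X i * lin D X i + X i * lin D Y i) +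
          (Y i * lin D X i + Y i * lin D Y i) := by
        intro i
        rw [lin_add hK hD hXY, hXY]
        ring
      rw [tsum_congr e2, Summable.tsum_add ((sum_fin hK hXin _).add (sum_fin hK hXin _))
        ((sum_fin hK hYin _).add (sum_fin hK hYin _)),
        Summable.tsum_add (sum_fin hK hXin _) (sum_fin hK hXin _),
        Summable.tsum_add (sum_fin hK hYin _) (sum_fin hK hYin _), sym' hK hD hYin hXin]
      ring
    have e3 : ∑' i, X i * lin D X i = ℓ m * z (Sum.inl m) ^ 2 := by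
      have hX0 : ∀ i, i ≠ Sum.inl m → X i = 0 := by
        rintro (i | j) hi
        · have : i ≠ m := fun h => hi (by rw [h])
          simp [hX, Pg, gr, this]
        · simp [hX, Pg, Pm]
      have hXm : X (Sum.inl m) = z (Sum.inl m) := by
        show (if m = m then z (Sum.inl m) else 0) = _
        rw [if_pos rfl]
      rw [tsum_eq_single (Sum.inl m) (fun i hi => by rw [hX0 i hi, zero_mul])]
      unfold lin
      rw [tsum_eq_single (Sum.inl m) (fun i hi => by rw [hX0 i hi, mul_zero]), hXm, hD.diag m]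
      ring
    have e4 := (abs_le.1 (up1 hK hs hD hXin hYin)).1
    have e5 := low' hK hs hD ha hYin
    have e6 := grp_sq hs hz m
    have hww : ww g z m = nm Y := rfl
    rw [hww] at e6
    have e7 : nm X ≤ nm (Pu g m z) := by
      refine nm_mono hs (hz.pu hs m) fun b => ?_
      show |Pg g m (Pm z) b| ≤ _
      unfold Pg Pu
      by_cases hb : gr g b = m
      · rw [if_pos hb, if_pos (by omega)]
        exact Pm_le z b
      · rw [if_neg hb, abs_zero]; exact abs_nonneg _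
    have e8 : nm Y ≤ nm (Pu g m (Po z)) := by
      refine nm_mono hs (hzp.pu hs m) fun b => ?_
      show |Pg g m (Po z) b| ≤ _
      unfold Pg Pu
      by_cases hb : gr g b = m
      · rw [if_pos hb, if_pos (by omega)]
      · rw [if_neg hb, abs_zero]; exact abs_nonneg _
    have e9 : nm (Pu g m (Po z)) ≤ nm (Pu g m z) := W_le_Y hs hz m
    have hκ := D_nn hs m
    have hx := nm_nn X
    have hy := nm_nn Y
    have hU := nm_nn (Pu g m z)
    have hW := nm_nn (Pu g m (Po z))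
    have f1 : 10 ^ 6 * (κ ^ m * L m) * nm X * nm Y ≤
        10 ^ 6 * (κ ^ m * L m) * (nm (Pu g m z) * nm (Pu g m (Po z))) := by
      rw [mul_assoc _ (nm X)]
      gcongr
    have f2 : ℓ m ≤ κ ^ m * L m := (ℓ_le hs6 hs n).trans (κL_mono hs (Nat.le_succ n))
    have f3 : ℓ m * nm Y ^ 2 ≤ κ ^ m * L m * (nm (Pu g m z) * nm (Pu g m (Po z))) := by
      calc ℓ m * nm Y ^ 2 ≤ κ ^ m * L m * nm Y ^ 2 := by gcongr
        _ = κ ^ m * L m * (nm Y * nm Y) := by ring
        _ ≤ _ := by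
          gcongr
          exact e8.trans e9
    rw [e1, e3, e6, hE]
    have f4 : 0 ≤ κ ^ m * L m * (nm (Pu g m z) * nm (Pu g m (Po z))) := by positivity
    nlinarith
  · rw [pg_pu hk.le, if_neg (by omega), sub_zero]
    obtain ⟨j, rfl⟩ : ∃ j, k = j + 1 := ⟨k - 1, by omega⟩
    refine le_trans ?_ (low2 hK hD (Pg_in (j + 1) z))
    have h3 : κ ^ m * L m ≤ κ ^ j * L j := κL_mono hs (by omega)
    have h4 := κL_succ hs n
    have h5 := ℓ_le hs6 hs n
    have h6 := D_nn hs n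
    have h7 := hs.μ_big
    have h8 : ℓ m ≤ 1 / 1000 * (κ ^ j * L j) := by
      have h9 : 10 ^ 30 * (κ ^ n * L n) ≤ μ * (κ ^ n * L n) := by gcongr
      rw [hm] at h3 ⊢
      linarith
    gcongr

end Pool.Agent.Y61.SK
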